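import Pool.Agent.Helper40.Ptak.Final

/-!
# Extremal annihilating polynomials for functions of contractions

For all `n ≥ 1`, `0 < p < 1` and every `ψ` holomorphic near the closed disc `D(p)`, the maximum of
`φ ↦ M_ψ(φ)` over `F(p)` is attained at a polynomial `(z - α)^n` with `|α| = p`: one may take for
`α` any maximum point, on the circle `|α| = p`, of the norm of `ψ(S_α)`, where `S_α` is an explicit
`n × n` upper triangular matrix, and the maximal value is this norm.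
-/

open Polynomial ComplexConjugate

namespace Pool.Agent.Results.MP_c470bc_an.PowersOfLinear

/-- `H = ℂⁿ` with its standard inner product. -/
abbrev H (n : ℕ) : Type := EuclideanSpace ℂ (Fin n)

/-- `F(p)`: the nonconstant complex polynomials all of whose roots lie in the closed disc `D(p)`
with centre `0` and radius `p`. -/
def F (p : ℝ) : Set ℂ[X] := {φ | 0 < φ.natDegree ∧ ∀ z : ℂ, φ.IsRoot z → ‖z‖ ≤ p}

/-- `ψ(a)`, the holomorphic functional calculus for `ψ` holomorphic near the closed disc `D(p)` and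
`a` with spectrum in `D(p)`: the Taylor series of `ψ` at `0`, evaluated at `a`. (For a polynomial
`ψ` this is the usual `ψ(a)`.) -/
noncomputable def fc {n : ℕ} (ψ : ℂ → ℂ) (a : H n →L[ℂ] H n) : H n →L[ℂ] H n :=
  ∑' k : ℕ, (iteratedDeriv k ψ 0 / (k.factorial : ℂ)) • a ^ k

/-- The set of the numbers `‖ψ(a)‖`, for `a` linear on `H` with `‖a‖ ≤ 1` and `φ(a) = 0`. -/
def normValues (n : ℕ) (ψ : ℂ → ℂ) (φ : ℂ[X]) : Set ℝ :=
  {t | ∃ a : H n →L[ℂ] H n, ‖a‖ ≤ 1 ∧ aeval a φ = 0 ∧ t = ‖fc ψ a‖}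

/-- `M_ψ(φ)`: the maximum of the numbers `‖ψ(a)‖`, for `a` linear on `H` with `‖a‖ ≤ 1` and
`φ(a) = 0` (the first clause of `result` says that this supremum is a maximum). -/
noncomputable def M (n : ℕ) (ψ : ℂ → ℂ) (φ : ℂ[X]) : ℝ := sSup (normValues n ψ φ)

/-- The explicit `n × n` upper triangular (Toeplitz) matrix with `α` on the diagonal and
`(1 - |α|²) (-conj α)^(j - i - 1)` in position `(i, j)` for `i < j`, as an operator on `ℂⁿ`. -/
noncomputable def S (n : ℕ) (α : ℂ) : H n →L[ℂ] H n :=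
  Matrix.toEuclideanCLM (n := Fin n) (𝕜 := ℂ) (Matrix.of fun i j : Fin n =>
    if i = j then α
    else if i < j then (1 - (‖α‖ : ℂ) ^ 2) * (-conj α) ^ ((j : ℕ) - (i : ℕ) - 1)
    else 0)

/-- `α` is a maximum point of `β ↦ ‖ψ(S_β)‖` on the circle `|β| = p`. -/
def IsCirclePeak (n : ℕ) (p : ℝ) (ψ : ℂ → ℂ) (α : ℂ) : Prop :=
  ‖α‖ = p ∧ ∀ β : ℂ, ‖β‖ = p → ‖fc ψ (S n β)‖ ≤ ‖fc ψ (S n α)‖

theorem result (n : ℕ) (hn : 1 ≤ n) (p : ℝ) (hp0 : 0 < p) (hp1 : p < 1) (ψ : ℂ → ℂ)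
    (hψ : AnalyticOnNhd ℂ ψ (Metric.closedBall 0 p)) :
    (∀ φ ∈ F p, IsGreatest (normValues n ψ φ) (M n ψ φ)) ∧
    (∀ α : ℂ, ‖α‖ ≤ p →
      (X - C α) ^ n ∈ F p ∧ M n ψ ((X - C α) ^ n) = ‖fc ψ (S n α)‖) ∧
    (∃ α : ℂ, IsCirclePeak n p ψ α) ∧
    (∀ α : ℂ, IsCirclePeak n p ψ α → ∀ φ ∈ F p, M n ψ φ ≤ M n ψ ((X - C α) ^ n)) := by
  obtain ⟨m, rfl⟩ := Nat.exists_eq_add_of_le' hn
  -- translation of the definitions
  have hfc : ∀ a : H (m + 1) →L[ℂ] H (m + 1), fc ψ a = Helper40.Ptak.holo ψ a := fun _ => rfl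
  have hS : ∀ α : ℂ, S (m + 1) α = Helper40.Ptak.model (m + 1) α := fun _ => rfl
  have hmax : ∀ φ ∈ F p, IsGreatest (normValues (m + 1) ψ φ) (M (m + 1) ψ φ) := by
    intro φ hφ
    obtain ⟨a, ⟨ha1, ha2⟩, hmax⟩ := Helper40.Ptak.exists_max (m := m) hp0.le hp1 hψ hφ.1 hφ.2
    have hg : IsGreatest (normValues (m + 1) ψ φ) ‖fc ψ a‖ := by
      refine ⟨⟨a, ha1, ha2, rfl⟩, ?_⟩
      rintro t ⟨b, hb1, hb2, rfl⟩
      exact hmax b ⟨hb1, hb2⟩
    rw [M, hg.csSup_eq]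
    exact hg
  have hF : ∀ α : ℂ, ‖α‖ ≤ p → (X - C α) ^ (m + 1) ∈ F p := by
    intro α hα
    refine ⟨?_, ?_⟩
    · rw [natDegree_pow, natDegree_X_sub_C]
      omega
    · intro z hz
      have h1 : z - α = 0 := by simpa using hz
      rw [sub_eq_zero.mp h1]
      exact hα
  have hval : ∀ α : ℂ, ‖α‖ ≤ p →
      M (m + 1) ψ ((X - C α) ^ (m + 1)) = ‖fc ψ (S (m + 1) α)‖ := by
    intro α hα
    have hα1 : ‖α‖ ≤ 1 := hα.trans hp1.le
    apply IsGreatest.csSup_eq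
    refine ⟨⟨S (m + 1) α, ?_, ?_, rfl⟩, ?_⟩
    · rw [hS]
      exact Helper40.Ptak.model_norm_le _ hα1
    · rw [hS, ← Helper40.Ptak.nodePoly_replicate]
      exact Helper40.Ptak.model_ann _ _
    · rintro t ⟨b, hb1, hb2, rfl⟩
      rw [← Helper40.Ptak.nodePoly_replicate] at hb2
      rw [hfc, hfc, hS]
      exact Helper40.Ptak.model_dom_holo hp0.le hp1 hψ hα b hb1 hb2
  refine ⟨hmax, fun α hα => ⟨hF α hα, hval α hα⟩, ?_, ?_⟩
  · obtain ⟨α, hα, hpeak⟩ := Helper40.Ptak.exists_peak (m := m) hp0.le hp1 hψ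
    exact ⟨α, hα, hpeak⟩
  · intro α hα φ hφ
    rw [hval α hα.1.le]
    obtain ⟨⟨a, ha1, ha2, ha3⟩, -⟩ := hmax φ hφ
    rw [ha3]
    obtain ⟨ℓ, hℓ, hnodes, hann⟩ := Helper40.Ptak.exists_nodes hφ.2 a ha2
    exact Helper40.Ptak.main_ineq hp0.le hp1 hψ hα.2 a ha1 ℓ hℓ hnodes hann

end Pool.Agent.Results.MP_c470bc_an.PowersOfLinear
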